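import Pool.Agent.H37.CNS.Stmts

/-! # NCL: the wild inertia groups generate the group of a cover -/

set_option autoImplicit false

namespace Pool.CND

/-- the place `z ↦ P.ord (g z)` -/
noncomputable def NCLaux.conj {k L : Type} [Field k] [Field L] [Algebra k L] (P : Place k L)
    (g : L ≃ₐ[k] L) : Place k L where
  ord z := P.ord (g z)
  ord_mul x y hx hy := by
    rw [map_mul]
    exact P.ord_mul _ _ (by simpa using hx) (by simpa using hy)
  ord_add x y hx hy hxy := by
    rw [map_add]
    exact P.ord_add _ _ (by simpa using hx) (by simpa using hy)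
      (by
        rw [← map_add]
        exact fun h => hxy ((map_eq_zero_iff g g.injective).1 h))
  ord_surj := by
    obtain ⟨x, hx, h1⟩ := P.ord_surj
    refine ⟨g.symm x, by simpa using hx, ?_⟩
    simpa using h1
  ord_const c hc := by
    rw [AlgEquiv.commutes]
    exact P.ord_const c hc
  residue x hx h0 := by
    obtain ⟨c, hc⟩ := P.residue (g x) (by simpa using hx) h0
    refine ⟨c, ?_⟩
    rcases hc with hc | hc
    · left
      apply g.injective
      rw [hc, AlgEquiv.commutes]
    · right
      rw [map_sub, AlgEquiv.commutes]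
      exact hc

theorem NCLaux.neg_one {k L : Type} [Field k] [Field L] [Algebra k L] (P : Place k L) (x : L)
    (hx : x ≠ 0) : P.ord (-x) = P.ord x := by
  have h1 : P.ord (1 : L) = 0 := by
    have := P.ord_const (1 : k) one_ne_zero
    simpa using this
  have h2 : P.ord (-1 : L) = 0 := by
    have := P.ord_const (-1 : k) (by simp)
    simpa using this
  have h3 := P.ord_mul (-1) x (by simp) hx
  rw [neg_one_mul, h2, zero_add] at h3
  exact h3

theorem ncl_thm (h1 : S_QU1) (h2 : S_TRV) (h3 : S_WLD) (h4 : S_TAC) (h5 : S_RSP) : S_NCL := by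
  intro p k L G _ _ _ _ _ _ ρ t P N hp hchar hcov ht hN hram
  have : N.Normal := hN
  obtain ⟨E, ρ', t', hE, ht', hρ', hcov'⟩ := h1 k L G ρ t N hcov
  obtain ⟨e, Q, he, hQ⟩ := h5 k E L (IntermediateField.val E) P t' hcov'.trans
  have hQ' : ∀ z : E, z ≠ 0 → (e : ℤ) * Q.ord z = P.ord (z : L) := by
    intro z hz
    exact hQ z hz
  have ht'0 : t' ≠ 0 := by
    intro h0
    apply hcov'.trans
    rw [h0]
    exact isAlgebraic_zero
  have hQt : Q.ord t' < 0 := by
    have h := hQ' t' ht'0
    rw [ht'] at h
    by_contra hcon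
    push Not at hcon
    have : 0 ≤ (e : ℤ) * Q.ord t' := mul_nonneg (by positivity) hcon
    omega
  have hepos : (0 : ℤ) < (e : ℤ) := by exact_mod_cast he
  have hone : ram Q ρ' 1 = {1} := by
    obtain ⟨W, I, hW, hI, hWI, ⟨n, hn⟩, m, hpm, hIm⟩ := h3 p k L G P ρ hp hchar hcov.inj
    obtain ⟨W', I', hW', hI', hWI', ⟨n', hn'⟩, m', hpm', hIm'⟩ :=
      h3 p k E (G ⧸ N) Q ρ' hp hchar hcov'.inj
    have hWN : W ≤ N := by
      intro w hw
      have : w ∈ (W : Set G) := hw
      rw [hW] at this
      exact hram this
    rw [← hW']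
    ext x
    constructor
    · intro hx
      have hxfix : Fixes Q (ρ' x) := by
        rw [hW'] at hx
        exact hx.1
      obtain ⟨g, rfl⟩ := QuotientGroup.mk_surjective x
      obtain ⟨c, hcN, hc⟩ := h2 k L G ρ N P (NCLaux.conj P (ρ g)) (by
        intro z hz hfix hz0
        have hzE : z ∈ E := (hE z).2 hfix
        have hz' : (⟨z, hzE⟩ : E) ≠ 0 := by
          intro h
          apply hz
          exact congrArg Subtype.val h
        have e1 := hQ' ⟨z, hzE⟩ hz'
        have e2 := hxfix ⟨z, hzE⟩ hz'
        have hz'' : ρ' (g : G ⧸ N) ⟨z, hzE⟩ ≠ 0 := by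
          simpa using hz'
        have e3 := hQ' (ρ' (g : G ⧸ N) ⟨z, hzE⟩) hz''
        rw [hρ' g ⟨z, hzE⟩] at e3
        change P.ord (ρ g z) = 0
        have e4 : P.ord z = (e : ℤ) * Q.ord ⟨z, hzE⟩ := e1.symm
        have e5 : P.ord (ρ g z) = (e : ℤ) * Q.ord (ρ' (g : G ⧸ N) ⟨z, hzE⟩) := e3.symm
        rw [e5, e2, ← e4, hz0])
      have hfix : Fixes P (ρ (g * c⁻¹)) := by
        intro z hz
        have hz2 : ρ c⁻¹ z ≠ 0 := by simpa using hz
        have e1 := hc (ρ c⁻¹ z) hz2
        change P.ord (ρ g (ρ c⁻¹ z)) = P.ord (ρ c (ρ c⁻¹ z)) at e1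
        have e2 : ρ (g * c⁻¹) z = ρ g (ρ c⁻¹ z) := by
          rw [map_mul]; rfl
        have e3 : ρ c (ρ c⁻¹ z) = z := by
          have : ρ (c * c⁻¹) z = ρ c (ρ c⁻¹ z) := by
            rw [map_mul]; rfl
          rw [← this, mul_inv_cancel, map_one]
          rfl
        rw [e2, e1, e3]
      have hmem : g * c⁻¹ ∈ I := by
        have : g * c⁻¹ ∈ (I : Set G) := by
          rw [hI]
          refine ⟨hfix, ?_⟩
          intro u hu hu1
          by_cases heq : ρ (g * c⁻¹) u = u
          · exact Or.inl heq
          · right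
            have hgu : ρ (g * c⁻¹) u ≠ 0 := by simpa using hu
            have hsub : ρ (g * c⁻¹) u + -u ≠ 0 := by
              intro h
              apply heq
              rw [← sub_eq_add_neg] at h
              exact sub_eq_zero.1 h
            have e1 := P.ord_add (ρ (g * c⁻¹) u) (-u) hgu (by simpa using hu) hsub
            rw [NCLaux.neg_one P u hu, hfix u hu, hu1, ← sub_eq_add_neg] at e1
            simpa using e1
        exact this
      have hmk : ((g * c⁻¹ : G) : G ⧸ N) = (g : G ⧸ N) := by
        rw [QuotientGroup.eq]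
        have : (g * c⁻¹)⁻¹ * g = c := by group
        rw [this]
        exact hcN
      -- the order of `x` divides `m`
      have hord1 : orderOf ((g : G) : G ⧸ N) ∣ m := by
        let φ : I →* G ⧸ N := (QuotientGroup.mk' N).comp I.subtype
        have hr : ((g : G) : G ⧸ N) ∈ φ.range := ⟨⟨g * c⁻¹, hmem⟩, hmk⟩
        have hd1 : orderOf ((g : G) : G ⧸ N) ∣ Nat.card φ.range :=
          Subgroup.orderOf_dvd_natCard φ.range hr
        have hcard : Nat.card I = Nat.card φ.range * Nat.card φ.ker := by
          have e1 := Subgroup.card_eq_card_quotient_mul_card_subgroup φ.ker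
          rw [e1]
          congr 1
          exact Nat.card_congr (QuotientGroup.quotientKerEquivRange φ).toEquiv
        have hdvdW : Nat.card W ∣ Nat.card φ.ker := by
          have hle : W.subgroupOf I ≤ φ.ker := by
            intro w hw
            rw [MonoidHom.mem_ker]
            change ((w : G) : G ⧸ N) = 1
            rw [QuotientGroup.eq_one_iff]
            exact hWN hw
          have e1 := Subgroup.card_dvd_of_le hle
          have e2 : Nat.card (W.subgroupOf I) = Nat.card W :=
            Nat.card_congr (Subgroup.subgroupOfEquivOfLe hWI).toEquiv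
          rwa [e2] at e1
        obtain ⟨s, hs⟩ := hdvdW
        have hWpos : 0 < Nat.card W := Nat.card_pos
        have : m = Nat.card φ.range * s := by
          have e3 : m * Nat.card W = Nat.card φ.range * (Nat.card W * s) := by
            rw [← hIm, hcard, hs]
          have e4 : m * Nat.card W = (Nat.card φ.range * s) * Nat.card W := by
            rw [e3]; ring
          exact Nat.eq_of_mul_eq_mul_right hWpos e4
        exact hd1.trans ⟨s, this⟩
      have hord2 : orderOf ((g : G) : G ⧸ N) ∣ p ^ n' := by
        rw [← hn']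
        exact Subgroup.orderOf_dvd_natCard W' hx
      have hcop : Nat.Coprime m (p ^ n') :=
        (Nat.Coprime.pow_left n' ((Nat.Prime.coprime_iff_not_dvd hp).2 hpm)).symm
      have h1' : orderOf ((g : G) : G ⧸ N) = 1 :=
        Nat.eq_one_of_dvd_coprimes hcop hord1 hord2
      exact orderOf_eq_one_iff.1 h1'
    · intro hx
      rw [Set.mem_singleton_iff] at hx
      rw [hx]
      exact W'.one_mem
  have hall := h4 p k E (G ⧸ N) ρ' t' Q hp hchar hcov' hQt hone
  rw [eq_top_iff]
  intro g _
  exact (QuotientGroup.eq_one_iff g).1 (hall (g : G ⧸ N))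

end Pool.CND
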